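import Pool.Agent.Helper17.SL.GoalsB

/-! # Project SL, packet SA: the form in terms of the embeddings -/

namespace Pool.Agent.Helper17.SL.PkSA

open Pool.Agent.Helper17.SL NumberField Module

universe u v w x

theorem cast_trace {E : Type*} [Field E] [NumberField E] {Ω : Type*} [Field Ω] [CharZero Ω]
    [IsAlgClosed Ω] {k : Type*} [Field k] [CharZero k] (ι : Ω →+* k) (z : E) :
    ((Algebra.trace ℚ E z : ℚ) : k) = ∑ σ : E →+* Ω, ι (σ z) := by
  have h1 := trace_eq_sum_embeddings (K := ℚ) (L := E) Ω (x := z)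
  have h2 : ((Algebra.trace ℚ E z : ℚ) : k) = ι (algebraMap ℚ Ω (Algebra.trace ℚ E z)) := by
    rw [eq_ratCast, map_ratCast]
  rw [h2, h1, map_sum]
  exact (Fintype.sum_equiv (RingHom.equivRatAlgHom E Ω) _ _ (fun σ => rfl)).symm

theorem thm : S_SA.{u, v, w, x} := by
  intro E _ _ Ω _ _ _ k _ _ ι d l R _ b x a c
  show ∑ i, ∑ j, ∑ r, (Algebra.trace ℚ E (a i * c j * b i j r)) • x i j r = _
  rw [Finset.sum_comm]
  conv_rhs => rw [Finset.sum_comm]
  rw [Finset.sum_comm]
  refine Finset.sum_congr rfl fun i _ => ?_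
  conv_rhs => rw [Finset.sum_comm]
  refine Finset.sum_congr rfl fun j _ => ?_
  simp only [Finset.mul_sum]
  conv_rhs => rw [Finset.sum_comm]
  refine Finset.sum_congr rfl fun r _ => ?_
  rw [Rat.smul_def, cast_trace ι, Finset.sum_mul]
  refine Finset.sum_congr rfl fun σ _ => ?_
  simp only [map_mul]
  ring

end Pool.Agent.Helper17.SL.PkSA
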